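import Pool.Agent.N343.AM.Stm

open Finset

namespace Pool.Agent.N875.AM.MIN

open Pool.Agent.N343.AM

theorem win_length (x : ℕ → Bool) (i n : ℕ) : (win x i n).length = n := by
  simp [win]

theorem win_get (x : ℕ → Bool) (i n j : ℕ) (hj : j < n) : (win x i n)[j]? = some (x (i + j)) := by
  simp [win, hj]

theorem infix_mid {a s b w1 w2 r : Wd} (h : a ++ s ++ b = w1 ++ (w2 ++ r))
    (h1 : a.length ≤ w1.length) (h2 : w1.length + w2.length ≤ a.length + s.length) :
    w2 <:+: s := by
  have h' : a ++ (s ++ b) = w1 ++ (w2 ++ r) := by rw [← h, List.append_assoc]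
  obtain ⟨c, rfl⟩ : a <+: w1 := by
    have hA : a <+: w1 ++ (w2 ++ r) := ⟨s ++ b, h'⟩
    have hB : w1 <+: w1 ++ (w2 ++ r) := ⟨w2 ++ r, rfl⟩
    exact List.prefix_of_prefix_length_le hA hB h1
  rw [List.append_assoc] at h'
  have h3 : s ++ b = c ++ (w2 ++ r) := List.append_cancel_left h'
  have h4 : (c ++ w2) <+: s := by
    have hA : s <+: s ++ b := ⟨b, rfl⟩
    have hB : (c ++ w2) <+: s ++ b := ⟨r, by rw [h3, List.append_assoc]⟩
    refine List.prefix_of_prefix_length_le hB hA ?_
    simp only [List.length_append] at h2 ⊢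
    omega
  obtain ⟨d, hd⟩ := h4
  exact ⟨c, d, hd⟩

theorem main (hC : S_CUT) (hE : S_EMB) : S_MIN := by
  intro W P m hS x hx x' hx' n
  have hv : win x' 0 n ∈ Fac (W n) := hx' n n
  have hlen : (win x' 0 n).length = n := win_length x' 0 n
  have h2 : 2 * (win x' 0 n).length ≤ m (n + 1) := by
    rw [hlen]
    have hg := hS.gr n
    have hD : 2 ≤ DD (P n) (m n) := by
      unfold DD
      omega
    have hp : n < 2 ^ n := Nat.lt_two_pow_self
    have hp2 : 2 ^ n ≤ 2 ^ (n + 4) := Nat.pow_le_pow_right (by norm_num) (by omega)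
    calc 2 * n ≤ 2 ^ (n + 4) * 2 := by omega
      _ ≤ 2 ^ (n + 4) * DD (P n) (m n) := Nat.mul_le_mul_left _ hD
      _ ≤ m (n + 1) := hg
  have hinf : ∀ u ∈ W (n + 2), win x' 0 n <:+: u := (hE W P m hS n _ hv h2).2.2
  obtain ⟨a, b, ha, hab⟩ :=
    (hC (W (n + 2)) (m (n + 2)) (hS.lv (n + 2))).2.2.1 _ (hx (2 * m (n + 2) + 2) (n + 2))
  obtain ⟨l, hl, hlf⟩ := hab
  have hlw : ∀ w ∈ l, m (n + 2) ≤ w.length ∧ w.length ≤ m (n + 2) + 1 := by
    intro w hw
    rcases (hS.lv (n + 2)).len w (hl w hw) with h | h <;> omega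
  have htot : 2 * m (n + 2) + 2 ≤ l.flatten.length := by
    rw [← hlf]
    simp only [List.length_append, win_length]
    omega
  rcases l with _ | ⟨w1, l⟩
  · simp at htot
  rcases l with _ | ⟨w2, r⟩
  · have := hlw w1 (by simp)
    simp at htot
    omega
  have hw1 := hlw w1 (by simp)
  have hw2 := hlw w2 (by simp)
  have hmid : w2 <:+: win x 0 (2 * m (n + 2) + 2) := by
    refine infix_mid (a := a) (b := b) (w1 := w1) (r := r.flatten) ?_ (by omega) ?_
    · rw [hlf]
      simp
    · rw [win_length]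
      omega
  obtain ⟨p, q, hpq⟩ := (hinf w2 (hl w2 (by simp))).trans hmid
  refine ⟨p.length, fun j hj => ?_⟩
  have hL : p.length + n + q.length = 2 * m (n + 2) + 2 := by
    have := congrArg List.length hpq
    simp only [List.length_append, win_length] at this
    exact this
  have e1 : (p ++ win x' 0 n ++ q)[p.length + j]? = some (x' j) := by
    rw [List.append_assoc, List.getElem?_append_right (by omega)]
    rw [List.getElem?_append_left (by rw [win_length]; omega)]
    rw [win_get _ _ _ _ (by omega)]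
    congr 2
    omega
  have e2 : (win x 0 (2 * m (n + 2) + 2))[p.length + j]? = some (x (p.length + j)) := by
    rw [win_get _ _ _ _ (by omega), Nat.zero_add]
  rw [hpq, e2] at e1
  exact Option.some.inj e1

end Pool.Agent.N875.AM.MIN
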